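import Mathlib
import Pool.Agent.Lib.P4a7640.Defs

/-!
# Multiplicative functions given by residue classes at the primes
-/

namespace Pool.Agent.Lib.P4a7640Q

open Pool.Agent.Lib.P4a7640

/-- `u` is multiplicative and `u(p) = ψ(p mod q)` for all primes `p` not dividing `q` -/
def ResU {q : ℕ} (ψ : (ZMod q)ˣ → ℤˣ) (u : ℕ → ℤˣ) : Prop :=
  MultS u ∧ ∀ p : ℕ, p.Prime → ∀ a : (ZMod q)ˣ, ((p : ℕ) : ZMod q) = (a : ZMod q) → u p = ψ a

end Pool.Agent.Lib.P4a7640Q
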