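import Mathlib
import Pool.Agent.Lib.P4a7640S.Cor
import Pool.Agent.Lib.P4a7640S.EntFin

/-!
# Multiplicative functions whose value at `p` depends on the residue class of `p`
-/

open Finset Filter Topology
open Pool.Agent.Lib.P4a7640 Pool.Agent.Lib.P4a7640C Pool.Agent.Lib.P4a7640S

namespace Pool.Agent.Lib.P4a7640Q

/-- the proportion of the residue classes on which `ψ` and `φ` differ -/
noncomputable def kap {q : ℕ} [NeZero q] (ψ φ : (ZMod q)ˣ → ℤˣ) : ℝ :=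
  ((univ.filter fun a => ψ a ≠ φ a).card : ℝ) / q.totient

/-- the Dirichlet character with the values of `φ` -/
noncomputable def chr {q : ℕ} (φ : (ZMod q)ˣ →* ℤˣ) : DirichletCharacter ℂ q :=
  MulChar.ofUnitHom ((Units.map (Int.castRingHom ℂ).toMonoidHom).comp φ)

lemma chr_coe {q : ℕ} (φ : (ZMod q)ˣ →* ℤˣ) (a : (ZMod q)ˣ) :
    chr φ (a : ZMod q) = (((φ a : ℤˣ) : ℤ) : ℂ) := by
  unfold chr
  rw [MulChar.ofUnitHom_coe]
  rfl

lemma totient_pos' (q : ℕ) [NeZero q] : (0:ℝ) < q.totient := by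
  exact_mod_cast Nat.totient_pos.2 (Nat.pos_of_ne_zero (NeZero.ne q))

lemma card_units (q : ℕ) [NeZero q] : (Fintype.card (ZMod q)ˣ : ℝ) = q.totient := by
  rw [ZMod.card_units_eq_totient]

lemma sum_mul_eq {q : ℕ} [NeZero q] (ψ φ : (ZMod q)ˣ → ℤˣ) :
    ∑ a : (ZMod q)ˣ, ((((ψ a * φ a : ℤˣ) : ℤ)) : ℝ) = q.totient * (1 - 2 * kap ψ φ) := by
  have h1 : ∀ a : (ZMod q)ˣ, ((((ψ a * φ a : ℤˣ) : ℤ)) : ℝ) = 1 - 2 * (if ψ a ≠ φ a then (1:ℝ) else 0) := by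
    intro a
    by_cases h : ψ a = φ a
    · rw [if_neg (by simpa using h), h, Int.units_mul_self]
      simp
    · rw [if_pos h]
      have h2 : ψ a * φ a = -1 := by
        rcases Int.units_eq_one_or (ψ a) with h3 | h3 <;> rcases Int.units_eq_one_or (φ a) with h4 | h4
        · exact absurd (h3.trans h4.symm) h
        · rw [h3, h4, one_mul]
        · rw [h3, h4, mul_one]
        · exact absurd (h3.trans h4.symm) h
      rw [h2]
      norm_num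
  rw [Finset.sum_congr rfl fun a _ => h1 a, Finset.sum_sub_distrib, ← Finset.mul_sum,
    Finset.sum_boole, Finset.sum_const, nsmul_eq_mul, mul_one, Finset.card_univ, card_units]
  unfold kap
  have := (totient_pos' q).ne'
  field_simp

lemma tau_eq {q : ℕ} [NeZero q] (ψ : (ZMod q)ˣ → ℤˣ) (φ : (ZMod q)ˣ →* ℤˣ) :
    tau ψ (chr φ) = ((1 - 2 * kap ψ φ : ℝ) : ℂ) := by
  have h1 : ∑ a : (ZMod q)ˣ, (((ψ a : ℤˣ) : ℤ) : ℂ) * (starRingEnd ℂ) (chr φ (a : ZMod q)) =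
      ((∑ a : (ZMod q)ˣ, ((((ψ a * φ a : ℤˣ) : ℤ)) : ℝ) : ℝ) : ℂ) := by
    push_cast
    refine Finset.sum_congr rfl fun a _ => ?_
    rw [chr_coe]
    simp
  unfold tau
  rw [h1, sum_mul_eq]
  have := (totient_pos' q).ne'
  push_cast
  rw [mul_comm, mul_div_assoc, div_self (by exact_mod_cast this), mul_one]

/-- two different real characters differ on half of the classes -/
lemma kap_hom {q : ℕ} [NeZero q] (φ φ' : (ZMod q)ˣ →* ℤˣ) (h : kap φ' φ ≠ 0) : kap φ' φ = 1 / 2 := by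
  have h1 := sum_mul_eq (q := q) φ' φ
  have hex : ∃ b, φ' b * φ b ≠ 1 := by
    by_contra hcon
    push Not at hcon
    apply h
    have h2 : ∑ a : (ZMod q)ˣ, ((((φ' a * φ a : ℤˣ) : ℤ)) : ℝ) = q.totient := by
      rw [Finset.sum_congr rfl fun a _ => by rw [hcon a]]
      simp only [Units.val_one, Int.cast_one, Finset.sum_const, nsmul_eq_mul, mul_one,
        Finset.card_univ, card_units]
    rw [h2] at h1
    have h3 := totient_pos' q
    have h4 : (q.totient : ℝ) * kap φ' φ = 0 := by linarith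
    rcases mul_eq_zero.mp h4 with h5 | h5
    · exact absurd h5 h3.ne'
    · exact h5
  obtain ⟨b, hb⟩ := hex
  have hb' : φ' b * φ b = -1 := (Int.units_eq_one_or _).resolve_left hb
  set S := ∑ a : (ZMod q)ˣ, ((((φ' a * φ a : ℤˣ) : ℤ)) : ℝ) with hS
  have h2 : S = -S := by
    calc S = ∑ a : (ZMod q)ˣ, ((((φ' (b * a) * φ (b * a) : ℤˣ) : ℤ)) : ℝ) :=
          (Fintype.sum_equiv (Equiv.mulLeft b) _ _ fun a => rfl).symm
      _ = ∑ a : (ZMod q)ˣ, -((((φ' a * φ a : ℤˣ) : ℤ)) : ℝ) := by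
          refine Finset.sum_congr rfl fun a _ => ?_
          have h3 : φ' (b * a) * φ (b * a) = -(φ' a * φ a) := by
            rw [map_mul, map_mul, mul_mul_mul_comm, hb', neg_one_mul]
          rw [h3]
          push_cast
          ring
      _ = -S := by rw [Finset.sum_neg_distrib]
  have h3 : S = 0 := by linarith
  rw [h3] at h1
  have h4 := totient_pos' q
  rcases mul_eq_zero.mp h1.symm with h5 | h5
  · exact absurd h5 h4.ne'
  · linarith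

lemma not_hom {q : ℕ} [NeZero q] {ψ : (ZMod q)ˣ → ℤˣ} {φ : (ZMod q)ˣ →* ℤˣ} (h0 : 0 < kap ψ φ)
    (h1 : kap ψ φ < 1 / 2) (φ' : (ZMod q)ˣ →* ℤˣ) : ∃ a, ψ a ≠ φ' a := by
  by_contra hcon
  push Not at hcon
  have h2 : kap ψ φ = kap φ' φ := by
    unfold kap
    simp only [hcon]
  rw [h2] at h0 h1
  have := kap_hom φ φ' h0.ne'
  linarith

/-- near the mean value -/
lemma ev_D {q : ℕ} [NeZero q] (u : ℕ → ℤˣ) (ψ : (ZMod q)ˣ → ℤˣ)
    (hu : ∀ p : ℕ, p.Prime → ∀ a : (ZMod q)ˣ, ((p:ℕ) : ZMod q) = (a : ZMod q) → u p = ψ a)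
    (φ : (ZMod q)ˣ →* ℤˣ) {β : ℝ} (hβ : β < 1 - 2 * kap ψ φ) :
    ∀ᶠ η in 𝓝[>] (0:ℝ), β ≤ (Dm (ze u (chr φ)) η).re := by
  have hlim := Dm_lim u ψ hu (chr φ)
  rw [tau_eq] at hlim
  have h2 := (Complex.continuous_re.tendsto _).comp hlim
  rw [Complex.ofReal_re] at h2
  exact (h2.eventually (lt_mem_nhds hβ)).mono fun η h => h.le

/-- sign patterns -/
theorem rich {q : ℕ} [NeZero q] {ψ : (ZMod q)ˣ → ℤˣ} {φ : (ZMod q)ˣ →* ℤˣ} (h0 : 0 < kap ψ φ)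
    (h1 : kap ψ φ < 1 / 2) {α : ℝ} (hα : α * (1 + 4 * kap ψ φ) < 1) :
    ∃ L₀ : ℕ, ∀ f g : ℕ → ℤˣ, (MultS fun n => f n * g n) →
      (∀ p : ℕ, p.Prime → ∀ a : (ZMod q)ˣ, ((p:ℕ) : ZMod q) = (a : ZMod q) → f p * g p = ψ a) →
      ∀ l : Filter ℕ, l.NeBot → l ≤ atTop → ∀ J : Finset ℕ, L₀ ≤ J.card → Rich f g l J α := by
  have hq : 0 < q := Nat.pos_of_ne_zero (NeZero.ne q)
  set κ := kap ψ φ with hκ
  obtain ⟨α', hα'0, hαα', hα'⟩ := exists_exp (x := 1 + 4 * κ) (by linarith) hα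
  -- `β < 1 - 2 κ` with `α (3 - 2 β) < 1`
  obtain ⟨ε, hε0, hε1, hε2⟩ : ∃ ε : ℝ, 0 < ε ∧ ε < 1 - 2 * κ ∧ α' * (1 + 4 * κ + 2 * ε) < 1 := by
    have h2 : 0 < 1 - α' * (1 + 4 * κ) := by linarith
    have h3 : 0 < 1 - 2 * κ := by linarith
    refine ⟨min ((1 - 2 * κ) / 2) ((1 - α' * (1 + 4 * κ)) / (4 * α')),
      lt_min (by linarith) (by positivity), ?_, ?_⟩
    · have := min_le_left ((1 - 2 * κ) / 2) ((1 - α' * (1 + 4 * κ)) / (4 * α'))
      linarith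
    · have h4 := min_le_right ((1 - 2 * κ) / 2) ((1 - α' * (1 + 4 * κ)) / (4 * α'))
      have h5 : α' * min ((1 - 2 * κ) / 2) ((1 - α' * (1 + 4 * κ)) / (4 * α')) ≤
          (1 - α' * (1 + 4 * κ)) / 4 := by
        refine (mul_le_mul_of_nonneg_left h4 hα'0.le).trans (le_of_eq ?_)
        field_simp
      nlinarith
  have hlow : 0 < 1 - 2 * κ - ε := by linarith
  obtain ⟨L₀, hL₀⟩ := corC (α := α) (β := 1 - 2 * κ - ε) (δ := min (1 - 2 * κ - ε) 1)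
    (lt_min hlow one_pos) (by linarith) (by linarith) (by
      have h2 : 3 - 2 * (1 - 2 * κ - ε) = 1 + 4 * κ + 2 * ε := by ring
      rw [h2]
      have h3 : 0 ≤ 1 + 4 * κ + 2 * ε := by linarith
      nlinarith [mul_le_mul_of_nonneg_right hαα'.le h3])
  refine ⟨L₀, fun f g hm hu l hne hl J hJ => ?_⟩
  have ha : Aperiodic fun n => f n * g n := aper_cong (fun n => f n * g n) ψ hu (not_hom h0 h1)
  refine hL₀ f g hm ha q hq (chr φ) ?_ l hne hl J hJ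
  filter_upwards [ev_D (fun n => f n * g n) ψ hu φ (β := 1 - 2 * κ - ε) (by linarith)] with η hη
  refine ⟨?_, ?_, hη⟩
  · exact (min_le_left _ _).trans (hη.trans (Complex.re_le_norm _))
  · have h2 := Complex.re_le_norm (Dm (ze (fun n => f n * g n) (chr φ)) η + 1)
    rw [Complex.add_re, Complex.one_re] at h2
    exact (min_le_right _ _).trans (by linarith)

/-- entropies -/
theorem ent {q : ℕ} [NeZero q] {ψ : (ZMod q)ˣ → ℤˣ} {φ : (ZMod q)ˣ →* ℤˣ} (h0 : 0 < kap ψ φ)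
    (h1 : kap ψ φ < 1 / 2) {γ : ℝ} (hγ : γ < (1 - 2 * kap ψ φ) / (1 + 2 * kap ψ φ)) :
    ∃ L₀ : ℕ, ∀ f g : ℕ → ℤˣ, (MultS fun n => f n * g n) →
      (∀ p : ℕ, p.Prime → ∀ a : (ZMod q)ˣ, ((p:ℕ) : ZMod q) = (a : ZMod q) → f p * g p = ψ a) →
      ∀ l : Filter ℕ, l.NeBot → l ≤ atTop → ∀ J : Finset ℕ, L₀ ≤ J.card →
        EntBd f g l J ((J.card : ℝ) ^ γ) := by
  have hq : 0 < q := Nat.pos_of_ne_zero (NeZero.ne q)
  set κ := kap ψ φ with hκ
  have hb : 0 < 1 - 2 * κ := by linarith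
  -- `β < 1 - 2 κ` with `γ < β / (2 - β)`
  have hcont : ContinuousAt (fun ε : ℝ => (1 - 2 * κ - ε) / (1 + 2 * κ + ε)) 0 := by
    apply ContinuousAt.div (by fun_prop) (by fun_prop)
    have : 1 + 2 * κ + 0 ≠ 0 := by linarith
    exact this
  have h2 : γ < (1 - 2 * κ - 0) / (1 + 2 * κ + 0) := by simpa using hγ
  have h3 : ∀ᶠ ε in 𝓝[>] (0:ℝ), γ < (1 - 2 * κ - ε) / (1 + 2 * κ + ε) :=
    (hcont.eventually (lt_mem_nhds h2)).filter_mono nhdsWithin_le_nhds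
  have h4 : ∀ᶠ ε in 𝓝[>] (0:ℝ), ε < 1 - 2 * κ := by
    have : ∀ᶠ ε in 𝓝 (0:ℝ), ε < 1 - 2 * κ := gt_mem_nhds hb
    exact this.filter_mono nhdsWithin_le_nhds
  have h5 : ∀ᶠ ε in 𝓝[>] (0:ℝ), 0 < ε := eventually_mem_nhdsWithin
  obtain ⟨ε, hε1, hε2, hε0⟩ := (h3.and (h4.and h5)).exists
  obtain ⟨L₀, hL₀⟩ := ent_D (β := 1 - 2 * κ - ε) (γ := γ) (by linarith) (by linarith) (by
    have h6 : 2 - (1 - 2 * κ - ε) = 1 + 2 * κ + ε := by ring
    rw [h6]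
    exact hε1)
  refine ⟨L₀, fun f g hm hu l hne hl J hJ => ?_⟩
  have ha : Aperiodic fun n => f n * g n := aper_cong (fun n => f n * g n) ψ hu (not_hom h0 h1)
  exact hL₀ f g hm ha q hq (chr φ)
    (ev_D (fun n => f n * g n) ψ hu φ (β := 1 - 2 * κ - ε) (by linarith)) l hne hl J hJ

end Pool.Agent.Lib.P4a7640Q
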