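import Mathlib
import Pool.Agent.Lib.P4a7640Q.Res

/-!
# The case of a single function
-/

open Finset Filter Topology MeasureTheory
open Pool.Agent.Lib.P4a7640 Pool.Agent.Lib.P4a7640C Pool.Agent.Lib.P4a7640S
open Pool.Agent.Lib.P4a7640E

namespace Pool.Agent.Lib.P4a7640Q

lemma sum_inv_pos {N : ℕ} (hN : 1 ≤ N) : (0:ℝ) < ∑ n ∈ Icc 1 N, (1:ℝ) / n := by
  apply Finset.sum_pos
  · intro n hn
    have : (0:ℝ) < n := by exact_mod_cast (mem_Icc.1 hn).1
    positivity
  · exact ⟨1, mem_Icc.2 ⟨le_rfl, hN⟩⟩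

lemma pr_true {N : ℕ} (hN : 1 ≤ N) {P : ℕ → Prop} (h : ∀ n, P n) : pr N P = 1 := by
  classical
  unfold pr
  rw [Finset.filter_true_of_mem fun n _ => h n, div_self (sum_inv_pos hN).ne']

lemma pr_false (N : ℕ) {P : ℕ → Prop} (h : ∀ n, ¬ P n) : pr N P = 0 := by
  classical
  unfold pr
  rw [Finset.filter_false_of_mem fun n _ => h n]
  simp

lemma Ent_one (J : Finset ℕ) {N : ℕ} (hN : 1 ≤ N) : Ent N (patn (fun _ => (1:ℤˣ)) J) = 0 := by
  unfold Ent
  apply Finset.sum_eq_zero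
  intro a _
  by_cases h : (fun _ => 1 : J → ℤˣ) = a
  · rw [pr_true hN fun n => by exact h]
    exact Real.negMulLog_one
  · rw [pr_false N fun n => by exact h]
    exact Real.negMulLog_zero

lemma patJ_one {l : Filter ℕ} {J : Finset ℕ} {x : J → ℤˣ} (hx : x ∈ patJ (fun _ => (1:ℤˣ)) l J) :
    x = fun _ => 1 := by
  by_contra hcon
  have hx2 : ¬ Tendsto (fun N => pr N fun n => ∀ j : J, (fun _ => (1:ℤˣ)) (n + j) = x j) l (𝓝 0) := by
    classical
    unfold patJ at hx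
    exact (Finset.mem_filter.1 hx).2
  apply hx2
  have h1 : ∀ N, pr N (fun _ => ∀ j : J, (1:ℤˣ) = x j) = 0 := by
    intro N
    apply pr_false
    intro _ h
    apply hcon
    funext j
    exact (h j).symm
  simp only [h1]
  exact tendsto_const_nhds

lemma card_patJ_one (l : Filter ℕ) (J : Finset ℕ) : (patJ (fun _ => (1:ℤˣ)) l J).card ≤ 1 := by
  rw [Finset.card_le_one]
  intro x hx y hy
  rw [patJ_one hx, patJ_one hy]

/-- patterns of a single function -/
theorem rich_one {u : ℕ → ℤˣ} {l : Filter ℕ} {J : Finset ℕ} {α : ℝ} (hJ : 1 ≤ J.card)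
    (h : Rich u (fun _ => 1) l J α) :
    Real.exp ((J.card : ℝ) ^ α) < ((patJ u l J).card : ℝ) ∧
      ∃ J' ⊆ J, (J.card : ℝ) ^ α ≤ J'.card ∧ ∀ x : J' → ℤˣ, x ∈ patJ u l J' := by
  obtain ⟨h1, J', hJ', hc, h2⟩ := h
  constructor
  · refine h1.trans_le ?_
    have h3 : ((patJ (fun _ => (1:ℤˣ)) l J).card : ℝ) ≤ 1 := by exact_mod_cast card_patJ_one l J
    have h4 : (0:ℝ) ≤ (patJ u l J).card := Nat.cast_nonneg _
    nlinarith
  · refine ⟨J', hJ', hc, ?_⟩
    rcases h2 with h2 | h2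
    · exact h2
    · exfalso
      have h3 : (0:ℝ) < (J.card : ℝ) ^ α := Real.rpow_pos_of_pos (by exact_mod_cast hJ) _
      have h4 : 0 < J'.card := by exact_mod_cast h3.trans_le hc
      obtain ⟨j, hj⟩ := Finset.card_pos.1 h4
      have h5 := patJ_one (h2 (fun _ => -1))
      have h6 := congrFun h5 ⟨j, hj⟩
      exact absurd h6 (by decide)

/-- entropies of a single function -/
theorem ent_one {u : ℕ → ℤˣ} {l : Filter ℕ} (hne : l.NeBot) (hl : l ≤ atTop) {J : Finset ℕ} {h : ℝ}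
    (hE : EntBd u (fun _ => 1) l J h) {μ : Measure XX} (hμ : FurstAlong u l μ) : h ≤ HMJ μ J := by
  refine ge_of_tendsto (Ent_tendsto_J hl hμ J) ?_
  filter_upwards [hE.1, hl (eventually_ge_atTop 1)] with N h1 h2
  rwa [Ent_one J h2, add_zero] at h1

end Pool.Agent.Lib.P4a7640Q
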